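import Mathlib
import Pool.Agent.H135R2.VS.Der

set_option autoImplicit false

open MvPolynomial Set MeasureTheory

namespace Pool.Agent.X215.SR

theorem der_sum {τ : Type*} [Fintype τ] [DecidableEq τ] (D : Derivation ℚ ℝ ℝ) (z : τ → ℝ)
    (q : MvPolynomial τ ℚ) :
    D (aeval z q) = ∑ o, aeval z (pderiv o q) * D (z o) := by
  induction q using MvPolynomial.induction_on with
  | C a =>
    rw [aeval_C, D.map_algebraMap]
    simp
  | add p q hp hq => simp [hp, hq, add_mul, Finset.sum_add_distrib]
  | mul_X p j hp =>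
    rw [map_mul, aeval_X, Derivation.leibniz, hp]
    simp only [Derivation.leibniz, smul_eq_mul, map_add, map_mul, aeval_X, pderiv_X, add_mul,
      Finset.sum_add_distrib, Finset.mul_sum]
    congr 1
    · rw [Finset.sum_eq_single j]
      · simp
      · intro b _ hb
        rw [Pi.single_eq_of_ne (Ne.symm hb)]
        simp
      · simp
    · refine Finset.sum_congr rfl fun o _ => ?_
      ring

theorem pderiv_ne_zero {τ : Type*} [DecidableEq τ] {p : MvPolynomial τ ℚ} {o : τ}
    (ho : o ∈ p.vars) : pderiv o p ≠ 0 ∧ (pderiv o p).totalDegree < p.totalDegree := by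
  obtain ⟨m, hm, hmo⟩ := (mem_vars_iff_mem_support o).1 ho
  rw [Finsupp.mem_support_iff] at hmo
  have h1 : m = (m - Finsupp.single o 1) + Finsupp.single o 1 := by
    rw [tsub_add_cancel_of_le]
    rw [Finsupp.single_le_iff]
    omega
  have hne : pderiv o p ≠ 0 := by
    intro h0
    have h2 := coeff_pderiv (i := o) p (m - Finsupp.single o 1)
    rw [h0, coeff_zero, ← h1] at h2
    rcases mul_eq_zero.1 h2.symm with h3 | h3
    · exact (mem_support_iff.1 hm) h3
    · have : ((m - Finsupp.single o 1 : τ →₀ ℕ) o : ℚ) + 1 ≠ 0 := Nat.cast_add_one_ne_zero _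
      exact this h3
  refine ⟨hne, ?_⟩
  have hle : ∀ m' ∈ (pderiv o p).support, (m'.sum fun _ e => e) + 1 ≤ p.totalDegree := by
    intro m' hm'
    rw [mem_support_iff, coeff_pderiv] at hm'
    have h1 : m' + Finsupp.single o 1 ∈ p.support := by
      rw [mem_support_iff]
      intro h2
      rw [h2, zero_mul] at hm'
      exact hm' rfl
    have h2 := le_totalDegree h1
    rw [Finsupp.sum_add_index' (fun _ => rfl) (fun _ _ _ => rfl),
      Finsupp.sum_single_index rfl] at h2
    exact h2
  have hpos : 1 ≤ p.totalDegree := by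
    obtain ⟨m', hm'⟩ := MvPolynomial.support_nonempty.2 hne
    have := hle m' hm'
    omega
  have : (pderiv o p).totalDegree ≤ p.totalDegree - 1 := by
    unfold totalDegree
    refine Finset.sup_le fun m' hm' => ?_
    have := hle m' hm'
    unfold totalDegree at this
    omega
  omega

theorem exists_rel {κ : Type*} [LinearOrder κ] {x : κ → ℝ} (hx : IsTranscendenceBasis ℚ x)
    (y : ℝ) :
    ∃ (n : ℕ) (s : Fin n → κ) (q : MvPolynomial (Option (Fin n)) ℚ), StrictMono s ∧
      aeval (fun o : Option (Fin n) => o.elim y (x ∘ s)) q = 0 ∧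
      ∀ o, aeval (fun o : Option (Fin n) => o.elim y (x ∘ s)) (pderiv o q) ≠ 0 := by
  classical
  set Z : Option κ → ℝ := fun o => o.elim y x with hZ
  have hni : ¬ AlgebraicIndependent ℚ Z := by
    rw [hZ, hx.1.option_iff_transcendental y]
    have h := hx.isAlgebraic
    exact fun h' => h' (h.isAlgebraic y)
  rw [algebraicIndependent_iff] at hni
  push Not at hni
  have hex : ∃ d, ∃ p : MvPolynomial (Option κ) ℚ, aeval Z p = 0 ∧ p ≠ 0 ∧ p.totalDegree = d := by
    obtain ⟨p, hp, hp0⟩ := hni
    exact ⟨_, p, hp, hp0, rfl⟩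
  obtain ⟨p, hp, hp0, hpd⟩ := Nat.find_spec hex
  have hmin : ∀ p' : MvPolynomial (Option κ) ℚ, p' ≠ 0 → p'.totalDegree < p.totalDegree →
      aeval Z p' ≠ 0 := by
    intro p' h1 h2 h3
    rw [hpd] at h2
    exact Nat.find_min hex h2 ⟨p', h3, h1, rfl⟩
  have hnone : none ∈ p.vars := by
    by_contra hcon
    have hsub : (p.vars : Set (Option κ)) ⊆ range (some : κ → Option κ) := by
      intro o ho
      cases o with
      | none => exact absurd ho hcon
      | some t => exact ⟨t, rfl⟩
    obtain ⟨q, hq⟩ := exists_rename_eq_of_vars_subset_range p some (Option.some_injective κ) hsub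
    apply hp0
    rw [← hq, aeval_rename] at hp
    have : (Z ∘ some) = x := rfl
    rw [this] at hp
    rw [← hq, (algebraicIndependent_iff.1 hx.1) q hp, map_zero]
  set F := Finset.eraseNone p.vars with hF
  have hf : Function.Injective (Option.map (F.orderEmbOfFin rfl)) :=
    Option.map_injective (F.orderEmbOfFin rfl).injective
  have hr : range (F.orderEmbOfFin rfl) = F := Finset.range_orderEmbOfFin F rfl
  have hsub : (p.vars : Set (Option κ)) ⊆ range (Option.map (F.orderEmbOfFin rfl)) := by
    intro o ho
    cases o with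
    | none => exact ⟨none, rfl⟩
    | some t =>
      have : t ∈ (F : Set κ) := by
        rw [hF]
        simpa using ho
      rw [← hr] at this
      obtain ⟨i, hi⟩ := this
      exact ⟨some i, by simp [hi]⟩
  obtain ⟨q, hq⟩ := exists_rename_eq_of_vars_subset_range p _ hf hsub
  have hcomp : (fun o : Option (Fin F.card) => o.elim y (x ∘ (F.orderEmbOfFin rfl))) =
      Z ∘ (Option.map (F.orderEmbOfFin rfl)) := by
    funext o
    cases o <;> rfl
  refine ⟨F.card, F.orderEmbOfFin rfl, q, (F.orderEmbOfFin rfl).strictMono, ?_, ?_⟩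
  · rw [hcomp, ← aeval_rename, hq, hp]
  · intro o
    rw [hcomp, ← aeval_rename, ← pderiv_rename hf, hq]
    have ho : Option.map (F.orderEmbOfFin rfl) o ∈ p.vars := by
      cases o with
      | none => exact hnone
      | some i =>
        exact Finset.mem_eraseNone.1 (Finset.orderEmbOfFin_mem F rfl i)
    obtain ⟨h1, h2⟩ := pderiv_ne_zero ho
    exact hmin _ h1 h2

theorem der_formula {κ : Type*} [DecidableEq κ] {x : κ → ℝ} {n : ℕ} (t : Fin n → κ)
    (ht : Function.Injective t) (q : MvPolynomial (Option (Fin n)) ℚ) (z : Option (Fin n) → ℝ)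
    (hz : ∀ i, z (some i) = x (t i)) (h0 : aeval z q = 0) (h1 : aeval z (pderiv none q) ≠ 0)
    (D : κ → Derivation ℚ ℝ ℝ) (hD : ∀ a b, D a (x b) = if b = a then 1 else 0) :
    (∀ i, D (t i) (z none) =
      -(aeval z (pderiv (some i) q)) / aeval z (pderiv none q)) ∧
    ∀ a, a ∉ range t → D a (z none) = 0 := by
  have key : ∀ a, aeval z (pderiv none q) * D a (z none) +
      ∑ i, aeval z (pderiv (some i) q) * (if t i = a then 1 else 0) = 0 := by
    intro a
    have := der_sum (D a) z q
    rw [h0, map_zero, Fintype.sum_option] at this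
    refine Eq.trans ?_ this.symm
    congr 1
    refine Finset.sum_congr rfl fun i _ => ?_
    rw [hz, hD]
  constructor
  · intro i
    have := key (t i)
    rw [Finset.sum_eq_single i] at this
    · rw [if_pos rfl, mul_one] at this
      field_simp
      linarith
    · intro j _ hj
      rw [if_neg (fun h => hj (ht h)), mul_zero]
    · simp
  · intro a ha
    have := key a
    rw [Finset.sum_eq_zero] at this
    · rw [add_zero] at this
      exact (mul_eq_zero.1 this).resolve_left h1
    · intro j _
      rw [if_neg (fun h => ha ⟨j, h⟩), mul_zero]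

end Pool.Agent.X215.SR
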