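import Mathlib
import Pool.Agent.X215.SR.A

set_option autoImplicit false
set_option linter.unusedSectionVars false

open MvPolynomial Set MeasureTheory

namespace Pool.Agent.X215.SR

/-- The positive reals whose last moving basis element has index `ξ` and sign `e`. -/
def Bp {I κ : Type*} [LinearOrder κ] (idx : κ → I) (D : κ → Derivation ℚ ℝ ℝ) (ξ : I) (e : ℝ) :
    Set ℝ :=
  {y | 0 < y ∧ ∃ t, idx t = ξ ∧ 0 < e * D t y ∧ ∀ t', t < t' → D t' y = 0}

def B0 {κ : Type*} (D : κ → Derivation ℚ ℝ ℝ) : Set ℝ := {y | 0 < y ∧ ∀ t, D t y = 0}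

variable {I κ : Type*} [LinearOrder I] [LinearOrder κ] {x : κ → ℝ} {idx : κ → I}
  {D : κ → Derivation ℚ ℝ ℝ}

theorem B0_add {a b : ℝ} (ha : a ∈ B0 D) (hb : b ∈ B0 D) : a + b ∈ B0 D :=
  ⟨add_pos ha.1 hb.1, fun t => by rw [map_add, ha.2, hb.2, add_zero]⟩

theorem B0_mul {a b : ℝ} (ha : a ∈ B0 D) (hb : b ∈ B0 D) : a * b ∈ B0 D :=
  ⟨mul_pos ha.1 hb.1, fun t => by rw [Derivation.leibniz, ha.2, hb.2]; simp⟩

theorem Bp_add {ξ : I} {e : ℝ} {a b : ℝ} (ha : a ∈ Bp idx D ξ e) (hb : b ∈ Bp idx D ξ e) :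
    a + b ∈ Bp idx D ξ e := by
  obtain ⟨ha0, t, ht, hta, htz⟩ := ha
  obtain ⟨hb0, s, hs, hsb, hsz⟩ := hb
  refine ⟨add_pos ha0 hb0, ?_⟩
  rcases lt_trichotomy t s with h | h | h
  · refine ⟨s, hs, ?_, fun t' ht' => ?_⟩
    · rw [map_add, htz s h, zero_add]; exact hsb
    · rw [map_add, htz t' (h.trans ht'), hsz t' ht', add_zero]
  · subst h
    refine ⟨t, hs, ?_, fun t' ht' => ?_⟩
    · rw [map_add, mul_add]; exact add_pos hta hsb
    · rw [map_add, htz t' ht', hsz t' ht', add_zero]
  · refine ⟨t, ht, ?_, fun t' ht' => ?_⟩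
    · rw [map_add, hsz t h, add_zero]; exact hta
    · rw [map_add, htz t' ht', hsz t' (h.trans ht'), add_zero]

theorem Bp_mul {ξ : I} {e : ℝ} {a b : ℝ} (ha : a ∈ Bp idx D ξ e) (hb : b ∈ Bp idx D ξ e) :
    a * b ∈ Bp idx D ξ e := by
  obtain ⟨ha0, t, ht, hta, htz⟩ := ha
  obtain ⟨hb0, s, hs, hsb, hsz⟩ := hb
  refine ⟨mul_pos ha0 hb0, ?_⟩
  rcases lt_trichotomy t s with h | h | h
  · refine ⟨s, hs, ?_, fun t' ht' => ?_⟩
    · rw [Derivation.leibniz, htz s h]
      simp only [smul_eq_mul, mul_zero, add_zero]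
      have := mul_pos ha0 hsb
      nlinarith [this]
    · rw [Derivation.leibniz, htz t' (h.trans ht'), hsz t' ht']; simp
  · subst h
    refine ⟨t, hs, ?_, fun t' ht' => ?_⟩
    · rw [Derivation.leibniz]
      simp only [smul_eq_mul]
      have h1 := mul_pos ha0 hsb
      have h2 := mul_pos hb0 hta
      nlinarith [h1, h2]
    · rw [Derivation.leibniz, htz t' ht', hsz t' ht']; simp
  · refine ⟨t, ht, ?_, fun t' ht' => ?_⟩
    · rw [Derivation.leibniz, hsz t h]
      simp only [smul_eq_mul, mul_zero, zero_add]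
      have := mul_pos hb0 hta
      nlinarith [this]
    · rw [Derivation.leibniz, htz t' ht', hsz t' (h.trans ht')]; simp

theorem disj_Bp {ξ ξ' : I} {e e' : ℝ} {y : ℝ} (h : y ∈ Bp idx D ξ e) (h' : y ∈ Bp idx D ξ' e') :
    ξ = ξ' ∧ 0 < e * e' := by
  obtain ⟨_, t, ht, hta, htz⟩ := h
  obtain ⟨_, s, hs, hsb, hsz⟩ := h'
  have hts : t = s := by
    rcases lt_trichotomy t s with h | h | h
    · rw [htz s h] at hsb; simp at hsb
    · exact h
    · rw [hsz t h] at hta; simp at hta
  subst hts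
  refine ⟨ht.symm.trans hs, ?_⟩
  rcases mul_pos_iff.1 hta with h1 | h1 <;> rcases mul_pos_iff.1 hsb with h2 | h2
  · exact mul_pos h1.1 h2.1
  · linarith [h1.2, h2.2]
  · linarith [h1.2, h2.2]
  · exact mul_pos_of_neg_of_neg h1.1 h2.1

theorem disj_B0 {ξ : I} {e : ℝ} {y : ℝ} (h : y ∈ B0 D) (h' : y ∈ Bp idx D ξ e) : False := by
  obtain ⟨_, t, ht, hta, htz⟩ := h'
  rw [h.2 t] at hta
  simp at hta

theorem cnt (τ : Type) [Finite τ] : Countable (MvPolynomial τ ℚ) := by
  rw [← Cardinal.mk_le_aleph0_iff]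
  refine (MvPolynomial.cardinalMk_le_max).trans ?_
  simp [Cardinal.mk_le_aleph0]

theorem meas_aeval {τ : Type*} [Finite τ] (q : MvPolynomial τ ℚ) :
    Measurable (fun z : τ → ℝ => aeval z q) := by
  have : (fun z : τ → ℝ => aeval z q) =
      fun z => eval z (MvPolynomial.map (algebraMap ℚ ℝ) q) := by
    funext z
    rw [aeval_def, eval₂_eq_eval_map]
  rw [this]
  exact (MvPolynomial.continuous_eval _).measurable

theorem cover (hx : IsTranscendenceBasis ℚ x) (hD : ∀ a b, D a (x b) = if b = a then 1 else 0)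
    {y : ℝ} (hy : 0 < y) : y ∈ B0 D ∨ ∃ ξ, y ∈ Bp idx D ξ 1 ∨ y ∈ Bp idx D ξ (-1) := by
  obtain ⟨n, s, q, hs, h0, h1⟩ := exists_rel hx y
  obtain ⟨hi, hn⟩ := der_formula s hs.injective q _ (fun i => rfl) h0 (h1 none) D hD
  change (∀ i, D (s i) y = _) at hi
  change (∀ a, a ∉ range s → D a y = 0) at hn
  cases n with
  | zero =>
    left
    refine ⟨hy, fun t => hn t ?_⟩
    rintro ⟨i, _⟩
    exact i.elim0
  | succ n =>
    right
    refine ⟨idx (s (Fin.last n)), ?_⟩
    have hz : ∀ t', s (Fin.last n) < t' → D t' y = 0 := by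
      intro t' ht'
      apply hn
      rintro ⟨i, rfl⟩
      exact absurd (hs.lt_iff_lt.1 ht') (not_lt.2 (Fin.le_last i))
    have hne : D (s (Fin.last n)) y ≠ 0 := by
      rw [hi]
      exact div_ne_zero (neg_ne_zero.2 (h1 _)) (h1 none)
    rcases lt_or_gt_of_ne hne with h | h
    · right
      exact ⟨hy, _, rfl, by linarith, hz⟩
    · left
      exact ⟨hy, _, rfl, by linarith, hz⟩

/-- parameters for a piece -/
def A (P : I → Set ℝ) (n : ℕ) (q : MvPolynomial (Option (Fin (n + 1))) ℚ) (ι : Fin (n + 1) → I)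
    (e : ℝ) : Set (Option (Fin (n + 1)) → ℝ) :=
  {z | (∀ i, z (some i) ∈ P (ι i)) ∧
    (∀ i j, i < j → (ι i < ι j ∨ (ι i = ι j ∧ z (some i) < z (some j)))) ∧
    aeval z q = 0 ∧ (∀ o, aeval z (pderiv o q) ≠ 0) ∧ 0 < z none ∧
    0 < e * (-(aeval z (pderiv (some (Fin.last n)) q)) / aeval z (pderiv none q))}

theorem meas_A {P : I → Set ℝ} (hP : ∀ i, MeasurableSet (P i)) (n : ℕ)
    (q : MvPolynomial (Option (Fin (n + 1))) ℚ) (ι : Fin (n + 1) → I) (e : ℝ) :
    MeasurableSet (A P n q ι e) := by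
  unfold A
  refine MeasurableSet.inter ?_ (MeasurableSet.inter ?_ (MeasurableSet.inter ?_
    (MeasurableSet.inter ?_ (MeasurableSet.inter ?_ ?_))))
  · change MeasurableSet {z : Option (Fin (n + 1)) → ℝ | ∀ i, z (some i) ∈ P (ι i)}
    rw [ofPred_forall]
    exact MeasurableSet.iInter fun i => measurable_pi_apply _ (hP _)
  · change MeasurableSet {z : Option (Fin (n + 1)) → ℝ |
      ∀ i j, i < j → (ι i < ι j ∨ (ι i = ι j ∧ z (some i) < z (some j)))}
    simp only [ofPred_forall]
    refine MeasurableSet.iInter fun i => MeasurableSet.iInter fun j =>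
      MeasurableSet.iInter fun _ => ?_
    refine MeasurableSet.union (MeasurableSet.const _) (MeasurableSet.inter
      (MeasurableSet.const _) ?_)
    exact measurableSet_lt (measurable_pi_apply _) (measurable_pi_apply _)
  · exact measurableSet_eq_fun (meas_aeval q) measurable_const
  · change MeasurableSet {z : Option (Fin (n + 1)) → ℝ | ∀ o, aeval z (pderiv o q) ≠ 0}
    rw [ofPred_forall]
    exact MeasurableSet.iInter fun o =>
      (measurableSet_eq_fun (meas_aeval _) measurable_const).compl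
  · exact measurableSet_lt measurable_const (measurable_pi_apply _)
  · exact measurableSet_lt measurable_const
      (measurable_const.mul ((meas_aeval _).neg.div (meas_aeval _)))

/-- what the members of `A` look like -/
theorem A_spec (hD : ∀ a b, D a (x b) = if b = a then 1 else 0)
    (hlt : ∀ t t', t < t' ↔ idx t < idx t' ∨ (idx t = idx t' ∧ x t < x t'))
    {n : ℕ} {q : MvPolynomial (Option (Fin (n + 1))) ℚ} {ι : Fin (n + 1) → I} {e : ℝ}
    {z : Option (Fin (n + 1)) → ℝ}
    (hz : z ∈ A (fun i => {r | ∃ t, idx t = i ∧ x t = r}) n q ι e) :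
    ∃ t : Fin (n + 1) → κ, StrictMono t ∧ (∀ i, z (some i) = x (t i)) ∧ (∀ i, idx (t i) = ι i) ∧
      range t = {a | D a (z none) ≠ 0} ∧ 0 < e * D (t (Fin.last n)) (z none) ∧ 0 < z none := by
  obtain ⟨h1, h2, h3, h4, h5, h6⟩ := hz
  choose t ht using h1
  have hmono : StrictMono t := by
    intro i j hij
    rw [hlt, (ht i).1, (ht j).1, (ht i).2, (ht j).2]
    exact h2 i j hij
  obtain ⟨hi, hn⟩ := der_formula t hmono.injective q z (fun i => (ht i).2.symm) h3 (h4 none) D hD
  refine ⟨t, hmono, fun i => (ht i).2.symm, fun i => (ht i).1, ?_, ?_, h5⟩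
  · ext a
    constructor
    · rintro ⟨i, rfl⟩
      change D (t i) (z none) ≠ 0
      rw [hi]
      exact div_ne_zero (neg_ne_zero.2 (h4 _)) (h4 none)
    · intro ha
      by_contra hcon
      exact ha (hn a hcon)
  · rw [hi]
    exact h6

theorem meas_Bp (hx : IsTranscendenceBasis ℚ x)
    (hD : ∀ a b, D a (x b) = if b = a then 1 else 0)
    (hlt : ∀ t t', t < t' ↔ idx t < idx t' ∨ (idx t = idx t' ∧ x t < x t'))
    (hP : ∀ i, MeasurableSet {r | ∃ t, idx t = i ∧ x t = r})
    (hI : ∀ i : I, (Set.Iic i).Countable) (ξ : I) (e : ℝ) : MeasurableSet (Bp idx D ξ e) := by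
  have hxinj : Function.Injective x := hx.1.injective
  have heq : Bp idx D ξ e = ⋃ (n : ℕ) (q : MvPolynomial (Option (Fin (n + 1))) ℚ)
      (ι : Fin (n + 1) → Set.Iic ξ) (_ : ((ι (Fin.last n) : Set.Iic ξ) : I) = ξ),
      (fun z : Option (Fin (n + 1)) → ℝ => z none) ''
        A (fun i => {r | ∃ t, idx t = i ∧ x t = r}) n q (fun i => (ι i : I)) e := by
    ext y
    simp only [mem_iUnion]
    constructor
    · rintro ⟨hy, t, ht, hte, htz⟩
      obtain ⟨m, s, q, hs, h0, h1⟩ := exists_rel hx y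
      obtain ⟨hi, hn⟩ := der_formula s hs.injective q _ (fun i => rfl) h0 (h1 none) D hD
      change (∀ i, D (s i) y = _) at hi
      change (∀ a, a ∉ range s → D a y = 0) at hn
      have htr : t ∈ range s := by
        by_contra hcon
        rw [hn t hcon] at hte
        simp at hte
      obtain ⟨i0, hi0⟩ := htr
      cases m with
      | zero => exact i0.elim0
      | succ n =>
        have hlast : s (Fin.last n) = t := by
          rcases (Fin.le_last i0).lt_or_eq with h | h
          · have h2 : t < s (Fin.last n) := by rw [← hi0]; exact hs h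
            have h3 := htz _ h2
            rw [hi] at h3
            exact absurd h3 (div_ne_zero (neg_ne_zero.2 (h1 _)) (h1 none))
          · rw [← h, hi0]
        have hle : ∀ i, idx (s i) ≤ ξ := by
          intro i
          rcases (Fin.le_last i).lt_or_eq with h | h
          · have h2 := hs h
            rw [hlast, hlt] at h2
            rcases h2 with h2 | h2
            · exact (ht ▸ h2).le
            · exact (h2.1.trans ht).le
          · rw [h, hlast, ht]
        refine ⟨n, q, fun i => ⟨idx (s i), hle i⟩, ?_, fun o => o.elim y (x ∘ s), ?_, rfl⟩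
        · change idx (s (Fin.last n)) = ξ
          rw [hlast, ht]
        · refine ⟨fun i => ⟨s i, rfl, rfl⟩, fun i j hij => (hlt _ _).1 (hs hij), h0, h1, hy, ?_⟩
          rw [← hi, hlast]
          exact hte
    · rintro ⟨n, q, ι, hι, z, hz, rfl⟩
      obtain ⟨t, hmono, _, hidx, hr, hpos, h5⟩ := A_spec hD hlt hz
      refine ⟨h5, t (Fin.last n), ?_, hpos, fun t' ht' => ?_⟩
      · rw [hidx, hι]
      · by_contra hcon
        have : t' ∈ range t := by rw [hr]; exact hcon
        obtain ⟨i, rfl⟩ := this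
        exact absurd (hmono.lt_iff_lt.1 ht') (not_lt.2 (Fin.le_last i))
  rw [heq]
  have hc : Countable (Set.Iic ξ) := (hI ξ).to_subtype
  refine MeasurableSet.iUnion fun n => ?_
  have hcq : Countable (MvPolynomial (Option (Fin (n + 1))) ℚ) := cnt _
  refine MeasurableSet.iUnion fun q => MeasurableSet.iUnion fun ι =>
    MeasurableSet.iUnion fun hι => ?_
  refine MeasurableSet.image_of_measurable_injOn (meas_A hP n q _ e) (measurable_pi_apply _) ?_
  intro z hz z' hz' hzz
  change z none = z' none at hzz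
  obtain ⟨t, hmono, hv, _, hr, _, _⟩ := A_spec hD hlt hz
  obtain ⟨t', hmono', hv', _, hr', _, _⟩ := A_spec hD hlt hz'
  have htt : t = t' := by
    rw [← hmono.range_inj hmono', hr, hr', hzz]
  funext o
  cases o with
  | none => exact hzz
  | some i => rw [hv, hv', htt]

theorem meas_B0 (hx : IsTranscendenceBasis ℚ x)
    (hD : ∀ a b, D a (x b) = if b = a then 1 else 0) : MeasurableSet (B0 D) := by
  have heq : B0 D = ⋃ (q : MvPolynomial (Option (Fin 0)) ℚ),
      (fun z : Option (Fin 0) → ℝ => z none) ''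
        {z | aeval z q = 0 ∧ aeval z (pderiv none q) ≠ 0 ∧ 0 < z none} := by
    ext y
    simp only [mem_iUnion]
    constructor
    · rintro ⟨hy, hy0⟩
      obtain ⟨m, s, q, hs, h0, h1⟩ := exists_rel hx y
      obtain ⟨hi, hn⟩ := der_formula s hs.injective q _ (fun i => rfl) h0 (h1 none) D hD
      change (∀ i, D (s i) y = _) at hi
      cases m with
      | succ n =>
        have h3 := hy0 (s (Fin.last n))
        rw [hi] at h3
        exact absurd h3 (div_ne_zero (neg_ne_zero.2 (h1 _)) (h1 none))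
      | zero =>
        exact ⟨q, _, ⟨h0, h1 none, hy⟩, rfl⟩
    · rintro ⟨q, z, ⟨h0, h1, hy⟩, rfl⟩
      refine ⟨hy, fun a => ?_⟩
      exact (der_formula (x := x) (fun i : Fin 0 => i.elim0) (fun i => i.elim0) q z
        (fun i => i.elim0) h0 h1 D hD).2 a (by rintro ⟨i, _⟩; exact i.elim0)
  rw [heq]
  have hcq : Countable (MvPolynomial (Option (Fin 0)) ℚ) := cnt _
  refine MeasurableSet.iUnion fun q => ?_
  refine MeasurableSet.image_of_measurable_injOn ?_ (measurable_pi_apply _) ?_
  · exact (measurableSet_eq_fun (meas_aeval q) measurable_const).inter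
      ((measurableSet_eq_fun (meas_aeval _) measurable_const).compl.inter
        (measurableSet_lt measurable_const (measurable_pi_apply _)))
  · intro z _ z' _ hzz
    funext o
    cases o with
    | none => exact hzz
    | some i => exact i.elim0

end Pool.Agent.X215.SR
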