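import Mathlib
import Pool.Agent.X215.SR.B

set_option autoImplicit false
set_option linter.unusedSectionVars false

open MvPolynomial Set MeasureTheory Cardinal

namespace Pool.Agent.X215.SR

/-- A partition of the positive reals into nonempty Borel sets closed under addition and
multiplication. -/
def SemiringPartition (ℬ : Set (Set ℝ)) : Prop :=
  (∀ B ∈ ℬ, B.Nonempty ∧ MeasurableSet B ∧ ∀ a ∈ B, ∀ b ∈ B, a + b ∈ B ∧ a * b ∈ B) ∧
    ℬ.PairwiseDisjoint id ∧ ⋃₀ ℬ = Set.Ioi 0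

theorem key (I : Type) [LinearOrder I] (hI : ∀ i : I, (Set.Iic i).Countable)
    (hcI : #I ≤ ℵ₁) (P : I → Set ℝ) (hPm : ∀ i, MeasurableSet (P i))
    (hPd : ∀ i j r, r ∈ P i → r ∈ P j → i = j)
    (hT : IsTranscendenceBasis ℚ (Subtype.val : (⋃ i, P i : Set ℝ) → ℝ)) :
    ∃ ℬ : Set (Set ℝ), SemiringPartition ℬ ∧ 1 < #ℬ ∧ #ℬ ≤ ℵ₁ := by
  classical
  let κ := {u : I ×ₗ ℝ // (ofLex u).2 ∈ P (ofLex u).1}
  let x : κ → ℝ := fun u => (ofLex u.1).2
  let idx : κ → I := fun u => (ofLex u.1).1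
  have hmem : ∀ u : κ, x u ∈ P (idx u) := fun u => u.2
  have hlt : ∀ t t' : κ, t < t' ↔ idx t < idx t' ∨ (idx t = idx t' ∧ x t < x t') := by
    intro t t'
    exact Prod.Lex.lt_iff (x := t.1) (y := t'.1)
  have hxinj : Function.Injective x := by
    intro u v huv
    have h1 : idx u = idx v := hPd _ _ (x u) (hmem u) (huv ▸ hmem v)
    apply Subtype.ext
    exact Prod.ext h1 huv
  have hran : range x = ⋃ i, P i := by
    ext r
    simp only [mem_range, mem_iUnion]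
    constructor
    · rintro ⟨u, rfl⟩
      exact ⟨_, hmem u⟩
    · rintro ⟨i, hi⟩
      exact ⟨⟨toLex (i, r), hi⟩, rfl⟩
  have hx : IsTranscendenceBasis ℚ x := by
    rw [← isTranscendenceBasis_subtype_range hxinj, hran]
    exact hT
  have hP : ∀ i, MeasurableSet {r | ∃ t, idx t = i ∧ x t = r} := by
    intro i
    have : {r | ∃ t, idx t = i ∧ x t = r} = P i := by
      ext r
      constructor
      · rintro ⟨t, rfl, rfl⟩
        exact hmem t
      · intro hr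
        exact ⟨⟨toLex (i, r), hr⟩, rfl, rfl⟩
    rw [this]
    exact hPm i
  have hDe : ∀ a : κ, ∃ D : Derivation ℚ ℝ ℝ, ∀ b, D (x b) = if b = a then 1 else 0 := fun a =>
    Pool.Agent.H135R2.VS.exists_der_basis hx _
  choose D hD using hDe
  have hne : Nonempty κ := by
    rw [hx.nonempty_iff_transcendental, Algebra.transcendental_iff_not_isAlgebraic]
    intro hal
    have h1 := Algebraic.countable ℚ ℝ
    have h2 : {x : ℝ | IsAlgebraic ℚ x} = Set.univ := by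
      ext y
      simp only [mem_ofPred_eq, mem_univ, iff_true]
      exact hal.isAlgebraic y
    rw [h2] at h1
    exact Cardinal.not_countable_real h1
  set ℬ : Set (Set ℝ) := {B | B.Nonempty ∧
    (B = B0 D ∨ ∃ ξ, B = Bp idx D ξ 1 ∨ B = Bp idx D ξ (-1))} with hB
  refine ⟨ℬ, ⟨?_, ?_, ?_⟩, ?_, ?_⟩
  · rintro B ⟨hBn, h⟩
    refine ⟨hBn, ?_, ?_⟩
    · rcases h with rfl | ⟨ξ, rfl | rfl⟩
      · exact meas_B0 hx hD
      · exact meas_Bp hx hD hlt hP hI _ _
      · exact meas_Bp hx hD hlt hP hI _ _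
    · intro a ha b hb
      rcases h with rfl | ⟨ξ, rfl | rfl⟩
      · exact ⟨B0_add ha hb, B0_mul ha hb⟩
      · exact ⟨Bp_add ha hb, Bp_mul ha hb⟩
      · exact ⟨Bp_add ha hb, Bp_mul ha hb⟩
  · rintro B ⟨_, h⟩ B' ⟨_, h'⟩ hBB
    change Disjoint B B'
    rw [Set.disjoint_left]
    intro y hy hy'
    apply hBB
    rcases h with rfl | ⟨ξ, rfl | rfl⟩ <;> rcases h' with rfl | ⟨ξ', rfl | rfl⟩
    · rfl
    · exact (disj_B0 hy hy').elim
    · exact (disj_B0 hy hy').elim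
    · exact (disj_B0 hy' hy).elim
    · rw [(disj_Bp hy hy').1]
    · have := (disj_Bp hy hy').2
      norm_num at this
    · exact (disj_B0 hy' hy).elim
    · have := (disj_Bp hy hy').2
      norm_num at this
    · rw [(disj_Bp hy hy').1]
  · ext y
    constructor
    · rintro ⟨B, ⟨_, h⟩, hy⟩
      rcases h with rfl | ⟨ξ, rfl | rfl⟩
      · exact hy.1
      · exact hy.1
      · exact hy.1
    · intro hy
      rcases cover (idx := idx) hx hD hy with h | ⟨ξ, h | h⟩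
      · exact ⟨_, ⟨⟨y, h⟩, Or.inl rfl⟩, h⟩
      · exact ⟨_, ⟨⟨y, h⟩, Or.inr ⟨ξ, Or.inl rfl⟩⟩, h⟩
      · exact ⟨_, ⟨⟨y, h⟩, Or.inr ⟨ξ, Or.inr rfl⟩⟩, h⟩
  · obtain ⟨t0⟩ := hne
    have h1 : D t0 (x t0) = 1 := by rw [hD, if_pos rfl]
    have hx0 : x t0 ≠ 0 := by
      intro h
      rw [h, map_zero] at h1
      exact zero_ne_one h1
    have hy : 0 < |x t0| := abs_pos.2 hx0
    have hDy : D t0 |x t0| ≠ 0 := by
      rcases abs_choice (x t0) with h | h
      · rw [h, h1]; exact one_ne_zero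
      · rw [h, map_neg, h1]; norm_num
    have hB0 : B0 D ∈ ℬ := by
      refine ⟨⟨1, one_pos, fun t => ?_⟩, Or.inl rfl⟩
      exact (D t).map_one_eq_zero
    have hnt : ℬ.Nontrivial := by
      rcases cover (idx := idx) hx hD hy with h | ⟨ξ, h | h⟩
      · exact absurd (h.2 t0) hDy
      · refine ⟨_, hB0, _, ⟨⟨_, h⟩, Or.inr ⟨ξ, Or.inl rfl⟩⟩, fun he => ?_⟩
        have h2 : |x t0| ∈ B0 D := he ▸ h
        exact hDy (h2.2 t0)
      · refine ⟨_, hB0, _, ⟨⟨_, h⟩, Or.inr ⟨ξ, Or.inr rfl⟩⟩, fun he => ?_⟩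
        have h2 : |x t0| ∈ B0 D := he ▸ h
        exact hDy (h2.2 t0)
    have : Nontrivial ℬ := hnt.coe_sort
    exact Cardinal.one_lt_iff_nontrivial.2 this
  · let g : Option (I × Bool) → Set ℝ := fun o => match o with
      | none => B0 D
      | some (ξ, true) => Bp idx D ξ 1
      | some (ξ, false) => Bp idx D ξ (-1)
    have hsub : ℬ ⊆ range g := by
      rintro B ⟨_, h⟩
      rcases h with rfl | ⟨ξ, rfl | rfl⟩
      · exact ⟨none, rfl⟩
      · exact ⟨some (ξ, true), rfl⟩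
      · exact ⟨some (ξ, false), rfl⟩
    refine (Cardinal.mk_le_mk_of_subset hsub).trans (Cardinal.mk_range_le.trans ?_)
    rw [Cardinal.mk_option, Cardinal.mk_prod, Cardinal.lift_id, Cardinal.lift_id]
    have h0 : ℵ₀ ≤ ℵ₁ := Cardinal.aleph0_le_aleph 1
    refine Cardinal.add_le_of_le h0 (Cardinal.mul_le_of_le h0 hcI ?_) (one_le_aleph0.trans h0)
    exact (Cardinal.mk_le_aleph0).trans h0

theorem key2 (I : Type) [LinearOrder I] [WellFoundedLT I] (hI : ∀ i : I, (Set.Iic i).Countable)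
    (hcI : #I ≤ ℵ₁) (Q : I → Set ℝ) (hQm : ∀ i, MeasurableSet (Q i))
    (hT : IsTranscendenceBasis ℚ (Subtype.val : (⋃ i, Q i : Set ℝ) → ℝ)) :
    ∃ ℬ : Set (Set ℝ), SemiringPartition ℬ ∧ 1 < #ℬ ∧ #ℬ ≤ ℵ₁ := by
  have hU : (⋃ i, (Q i \ ⋃ j ∈ Set.Iio i, Q j)) = ⋃ i, Q i := by
    ext r
    simp only [mem_iUnion, mem_diff, mem_Iio, exists_prop, not_exists, not_and]
    constructor
    · rintro ⟨i, hi, _⟩
      exact ⟨i, hi⟩
    · rintro ⟨i, hi⟩
      let S : Set I := {i | r ∈ Q i}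
      have hS : S.Nonempty := ⟨i, hi⟩
      refine ⟨wellFounded_lt.min S hS, wellFounded_lt.min_mem S hS, fun j hj hjr => ?_⟩
      exact wellFounded_lt.not_lt_min S hjr hj
  refine key I hI hcI (fun i => Q i \ ⋃ j ∈ Set.Iio i, Q j) ?_ ?_ ?_
  · intro i
    exact (hQm i).diff (MeasurableSet.biUnion ((hI i).mono Set.Iio_subset_Iic_self)
      fun j _ => hQm j)
  · intro i j r hi hj
    rcases lt_trichotomy i j with h | h | h
    · exact absurd (mem_biUnion (show i ∈ Set.Iio j from h) hi.1) hj.2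
    · exact h
    · exact absurd (mem_biUnion (show j ∈ Set.Iio i from h) hj.1) hi.2
  · rw [hU]
    exact hT

/-- There is a transcendence basis of `ℝ` over `ℚ` which is the union of at most `ℵ₁` Borel
sets. -/
def BorelTranscendenceBasis : Prop :=
  ∃ 𝒯 : Set (Set ℝ), #𝒯 ≤ ℵ₁ ∧ (∀ P ∈ 𝒯, MeasurableSet P) ∧
    IsTranscendenceBasis ℚ (Subtype.val : (⋃₀ 𝒯 : Set ℝ) → ℝ)

theorem main (h : BorelTranscendenceBasis) :
    ∃ ℬ : Set (Set ℝ), SemiringPartition ℬ ∧ 1 < #ℬ ∧ #ℬ ≤ ℵ₁ := by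
  obtain ⟨𝒯, hcard, hmeas, hT⟩ := h
  obtain ⟨L, hwf, hord⟩ := Cardinal.exists_ord_eq_type_lt 𝒯
  have hI : ∀ i : 𝒯, (@Set.Iic _ L.toPreorder i).Countable := by
    intro i
    have h1 := @Cardinal.mk_Iio_lt _ L hwf i hord
    have h2 : (@Set.Iio _ L.toPreorder i).Countable := by
      rw [← Cardinal.le_aleph0_iff_set_countable]
      have h3 := h1.trans_le hcard
      rw [← Cardinal.succ_aleph0] at h3
      exact Order.lt_succ_iff.1 h3
    refine (h2.union (Set.countable_singleton i)).mono ?_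
    intro j hj
    rcases (@lt_or_eq_of_le _ L.toPartialOrder _ _ hj) with h | h
    · exact Or.inl h
    · exact Or.inr h
  refine @key2 𝒯 L hwf hI hcard (fun i => i.1) (fun i => hmeas _ i.2) ?_
  have : (⋃ i : 𝒯, i.1) = ⋃₀ 𝒯 := by rw [sUnion_eq_iUnion]
  rw [this]
  exact hT

end Pool.Agent.X215.SR
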