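import Mathlib

set_option autoImplicit false

open Set MeasureTheory Cardinal Filter Topology

namespace Pool.Agent.X215.SR

/-- closure under addition gives closure under positive natural multiples -/
theorem nat_mul_mem {B : Set ℝ} (h : ∀ a ∈ B, ∀ b ∈ B, a + b ∈ B) {a : ℝ} (ha : a ∈ B) (n : ℕ) :
    ((n : ℝ) + 1) * a ∈ B := by
  induction n with
  | zero => simpa using ha
  | succ n ih =>
    have := h _ ih _ ha
    push_cast
    convert this using 1
    ring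

theorem exists_interval {B : Set ℝ} (hm : MeasurableSet B) (hn : ¬ IsMeagre B)
    (h : ∀ a ∈ B, ∀ b ∈ B, a + b ∈ B) :
    ∃ w0 δ : ℝ, 0 < δ ∧ ∀ w, |w - w0| < δ → w ∈ B := by
  obtain ⟨U, hU, hBU⟩ := hm.baireMeasurableSet.residualEq_isOpen
  have hne : U.Nonempty := by
    rw [Set.nonempty_iff_ne_empty]
    rintro rfl
    apply hn
    change Bᶜ ∈ residual ℝ
    filter_upwards [hBU] with b hb
    intro hbB
    have : (∅ : Set ℝ) b := hb ▸ hbB
    exact this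
  obtain ⟨u0, hu0⟩ := hne
  obtain ⟨r, hr, hball⟩ := Metric.isOpen_iff.1 hU u0 hu0
  refine ⟨2 * u0, 2 * r, by positivity, fun w hw => ?_⟩
  have hcont : Continuous (fun b : ℝ => w - b) := by fun_prop
  have hopen : IsOpenMap (fun b : ℝ => w - b) := (Homeomorph.subLeft w).isOpenMap
  have h1 : ∀ᶠ b in residual ℝ, (b ∈ B ↔ b ∈ U) := by
    filter_upwards [hBU] with b hb
    exact Iff.of_eq hb
  have h2 : ∀ᶠ b in residual ℝ, (w - b ∈ B ↔ w - b ∈ U) :=
    (tendsto_residual_of_isOpenMap hcont hopen).eventually h1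
  have hd := dense_of_mem_residual (h1.and h2)
  have hw2 : w / 2 ∈ U := by
    apply hball
    rw [Metric.mem_ball, Real.dist_eq]
    rw [abs_lt] at hw ⊢
    constructor <;> linarith [hw.1, hw.2]
  have hopn : IsOpen (U ∩ (fun b : ℝ => w - b) ⁻¹' U) := hU.inter (hU.preimage hcont)
  have hnn : (U ∩ (fun b : ℝ => w - b) ⁻¹' U).Nonempty := by
    refine ⟨w / 2, hw2, ?_⟩
    change w - w / 2 ∈ U
    have : w - w / 2 = w / 2 := by ring
    rw [this]
    exact hw2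
  obtain ⟨b, ⟨hb1, hb2⟩, hb3, hb4⟩ := hd.inter_open_nonempty _ hopn hnn
  have h5 := h b (hb3.2 hb1) (w - b) (hb4.2 hb2)
  have : b + (w - b) = w := by ring
  rwa [this] at h5

theorem unique_piece {ℬ : Set (Set ℝ)}
    (h1 : ∀ B ∈ ℬ, B.Nonempty ∧ MeasurableSet B ∧ ∀ a ∈ B, ∀ b ∈ B, a + b ∈ B ∧ a * b ∈ B)
    (h2 : ℬ.PairwiseDisjoint id) (h3 : ⋃₀ ℬ = Set.Ioi 0) {B : Set ℝ} (hB : B ∈ ℬ)
    (hn : ¬ IsMeagre B) : ℬ = {B} := by
  obtain ⟨w0, δ, hδ, hw⟩ := exists_interval (h1 B hB).2.1 hn (fun a ha b hb =>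
    ((h1 B hB).2.2 a ha b hb).1)
  have hw0 : w0 ∈ B := hw w0 (by simpa using hδ)
  have hpos : 0 < w0 := by
    have : w0 ∈ Set.Ioi (0 : ℝ) := h3 ▸ ⟨B, hB, hw0⟩
    exact this
  ext C
  constructor
  · intro hC
    by_contra hcon
    have hcon' : C ≠ B := hcon
    obtain ⟨c, hc⟩ := (h1 C hC).1
    have hc0 : 0 < c := by
      have : c ∈ Set.Ioi (0 : ℝ) := h3 ▸ ⟨C, hC, hc⟩
      exact this
    have hlt : max 0 (w0 - δ) / c < w0 / c := by
      apply div_lt_div_of_pos_right _ hc0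
      exact max_lt hpos (by linarith)
    obtain ⟨q, hq1, hq2⟩ := exists_rat_btwn hlt
    have hq0 : (0 : ℝ) < q := lt_of_le_of_lt (div_nonneg (le_max_left _ _) hc0.le) hq1
    have hqc : (q : ℝ) * c ∈ B := by
      apply hw
      rw [abs_lt]
      rw [div_lt_iff₀ hc0] at hq1
      rw [lt_div_iff₀ hc0] at hq2
      have := le_max_right 0 (w0 - δ)
      constructor <;> linarith
    have hq0' : (0 : ℚ) < q := by exact_mod_cast hq0
    have hnum : 0 < q.num := Rat.num_pos.2 hq0'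
    obtain ⟨k, hk⟩ : ∃ k : ℕ, q.num = (k : ℤ) + 1 := ⟨(q.num - 1).toNat, by omega⟩
    obtain ⟨l, hl⟩ : ∃ l : ℕ, q.den = l + 1 := ⟨q.den - 1, by have := q.den_pos; omega⟩
    have hmul : ((l : ℝ) + 1) * ((q : ℝ) * c) = ((k : ℝ) + 1) * c := by
      have h5 : (q : ℝ) * (q.den : ℝ) = (q.num : ℝ) := by
        have := Rat.mul_den_eq_num q
        exact_mod_cast this
      rw [hk, hl] at h5
      push_cast at h5
      rw [← h5]
      ring
    have m1 := nat_mul_mem (fun a ha b hb => ((h1 B hB).2.2 a ha b hb).1) hqc l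
    have m2 := nat_mul_mem (fun a ha b hb => ((h1 C hC).2.2 a ha b hb).1) hc k
    rw [hmul] at m1
    exact (Set.disjoint_left.1 (h2 hC hB hcon')) m2 m1
  · rintro rfl
    exact hB

/-- fewer than continuum many meager sets do not cover the line -/
def CovMeagre : Prop :=
  ∀ 𝒜 : Set (Set ℝ), #𝒜 < 𝔠 → (∀ A ∈ 𝒜, IsMeagre A) → ⋃₀ 𝒜 ≠ Set.univ

theorem pos_part (hcov : CovMeagre) {ℬ : Set (Set ℝ)}
    (h1 : ∀ B ∈ ℬ, B.Nonempty ∧ MeasurableSet B ∧ ∀ a ∈ B, ∀ b ∈ B, a + b ∈ B ∧ a * b ∈ B)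
    (h2 : ℬ.PairwiseDisjoint id) (h3 : ⋃₀ ℬ = Set.Ioi 0) : #ℬ = 1 ∨ #ℬ = 𝔠 := by
  have hle : #ℬ ≤ 𝔠 := by
    rw [← Cardinal.mk_real]
    choose! f hf using fun B (hB : B ∈ ℬ) => (h1 B hB).1
    refine Cardinal.mk_le_of_injective (f := fun B : ℬ => f B.1) ?_
    intro B C hBC
    change f B.1 = f C.1 at hBC
    by_contra hcon
    have := h2 B.2 C.2 (fun h => hcon (Subtype.ext h))
    exact (Set.disjoint_left.1 this) (hf _ B.2) (hBC ▸ hf _ C.2)
  rcases hle.lt_or_eq with hlt | heq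
  · left
    by_contra hne
    have hall : ∀ B ∈ ℬ, IsMeagre B := by
      intro B hB
      by_contra hn
      apply hne
      rw [unique_piece h1 h2 h3 hB hn]
      simp
    have hex : IsOpenEmbedding Real.exp := Real.isOpenEmbedding_exp
    refine hcov ((fun B => Real.exp ⁻¹' B) '' ℬ) (Cardinal.mk_image_le.trans_lt hlt) ?_ ?_
    · rintro A ⟨B, hB, rfl⟩
      exact (hall B hB).preimage_of_isOpenMap hex.continuous hex.isOpenMap
    · ext y
      simp only [mem_univ, iff_true]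
      have : Real.exp y ∈ ⋃₀ ℬ := by rw [h3]; exact Real.exp_pos y
      obtain ⟨B, hB, hy⟩ := this
      exact ⟨_, ⟨B, hB, rfl⟩, hy⟩
  · exact Or.inr heq

end Pool.Agent.X215.SR
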